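import Pool.Agent.BC.Stmts

/-!
# SCH: a basic sequence is a basis of its closed span
-/

set_option autoImplicit false

open Finset Filter Topology

namespace Pool.Agent.BC.H77

section

variable {X : Type} [NormedAddCommGroup X] [NormedSpace ℝ X]

/-- the partial sums of a finitely supported sequence are controlled by the whole sum -/
theorem part_le (e : ℕ → X) (P : ℝ)
    (h : ∀ (a : ℕ → ℝ) (m n : ℕ), m ≤ n →
      ‖∑ i ∈ range m, a i • e i‖ ≤ P * ‖∑ i ∈ range n, a i • e i‖)
    (c : ℕ →₀ ℝ) (m : ℕ) :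
    ‖∑ i ∈ range m, c i • e i‖ ≤ P * ‖Finsupp.linearCombination ℝ e c‖ := by
  obtain ⟨N, hN⟩ : ∃ N, c.support ⊆ range N := by
    obtain ⟨N, hN⟩ := c.support.exists_nat_subset_range
    exact ⟨N, hN⟩
  have hsub : c.support ⊆ range (max m N) := hN.trans (range_mono (le_max_right _ _))
  have h1 : Finsupp.linearCombination ℝ e c = ∑ i ∈ range (max m N), c i • e i := by
    rw [Finsupp.linearCombination_apply]
    exact Finsupp.sum_of_support_subset c hsub _ (by intro i _; exact zero_smul ℝ (e i))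
  rw [h1]
  exact h c m _ (le_max_left _ _)

theorem sum_eq (e : ℕ → X) (c : ℕ →₀ ℝ) :
    ∃ N, ∀ n, N ≤ n → ∑ i ∈ range n, c i • e i = Finsupp.linearCombination ℝ e c := by
  obtain ⟨N, hN⟩ := c.support.exists_nat_subset_range
  refine ⟨N, fun n hn => ?_⟩
  rw [Finsupp.linearCombination_apply]
  exact (Finsupp.sum_of_support_subset c (hN.trans (range_mono hn)) (fun i a => a • e i)
    (by intro i _; exact zero_smul ℝ (e i))).symm

end

theorem sch : SchStmt := by
  intro X _ _ _ e P he h y hy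
  have hP : 1 ≤ P := by
    have h1 := h (fun _ => 1) 1 1 le_rfl
    simp only [range_one, sum_singleton, one_smul] at h1
    have h2 : 0 < ‖e 0‖ := norm_pos_iff.2 (he 0)
    by_contra hc
    push Not at hc
    nlinarith
  have hy' : y ∈ closure ((Submodule.span ℝ (Set.range e) : Submodule ℝ X) : Set X) := hy
  obtain ⟨x, hx, hxy⟩ := mem_closure_iff_seq_limit.1 hy'
  have hc : ∀ k, ∃ c : ℕ →₀ ℝ, Finsupp.linearCombination ℝ e c = x k := by
    intro k
    have h1 : x k ∈ Submodule.span ℝ (Set.range e) := hx k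
    exact (Finsupp.mem_span_range_iff_exists_finsupp.1 h1)
  choose c hc using hc
  have hdiff : ∀ k l m, ‖∑ i ∈ range m, c k i • e i - ∑ i ∈ range m, c l i • e i‖ ≤
      P * ‖x k - x l‖ := by
    intro k l m
    have h1 := part_le e P h (c k - c l) m
    rw [map_sub, hc, hc] at h1
    have h2 : ∑ i ∈ range m, (c k - c l) i • e i =
        ∑ i ∈ range m, c k i • e i - ∑ i ∈ range m, c l i • e i := by
      rw [← sum_sub_distrib]
      refine sum_congr rfl fun i _ => ?_
      rw [Finsupp.sub_apply, sub_smul]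
    rw [h2] at h1
    exact h1
  have hxC : CauchySeq x := hxy.cauchySeq
  have hcoord : ∀ i, ∃ b : ℝ, Tendsto (fun k => c k i) atTop (𝓝 b) := by
    intro i
    have hei : 0 < ‖e i‖ := norm_pos_iff.2 (he i)
    apply cauchySeq_tendsto_of_complete
    rw [Metric.cauchySeq_iff]
    intro ε hε
    obtain ⟨N, hN⟩ := Metric.cauchySeq_iff.1 hxC (ε * ‖e i‖ / (2 * P)) (by positivity)
    refine ⟨N, fun k hk l hl => ?_⟩
    have h1 := hN k hk l hl
    rw [dist_eq_norm] at h1
    have h2 := hdiff k l (i + 1)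
    have h3 := hdiff k l i
    have h4 : (c k i - c l i) • e i =
        (∑ j ∈ range (i + 1), c k j • e j - ∑ j ∈ range (i + 1), c l j • e j) -
          (∑ j ∈ range i, c k j • e j - ∑ j ∈ range i, c l j • e j) := by
      rw [sum_range_succ, sum_range_succ, sub_smul]
      abel
    have h5 : ‖(c k i - c l i) • e i‖ ≤ 2 * P * ‖x k - x l‖ := by
      rw [h4]
      refine (norm_sub_le _ _).trans ?_
      linarith
    rw [norm_smul, Real.norm_eq_abs] at h5
    rw [Real.dist_eq]
    have h6 : |c k i - c l i| * ‖e i‖ < ε * ‖e i‖ := by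
      have h7 : 2 * P * ‖x k - x l‖ < 2 * P * (ε * ‖e i‖ / (2 * P)) :=
        mul_lt_mul_of_pos_left h1 (by linarith)
      have h8 : 2 * P * (ε * ‖e i‖ / (2 * P)) = ε * ‖e i‖ := by
        field_simp
      linarith
    exact lt_of_mul_lt_mul_right h6 hei.le
  choose a ha using hcoord
  have hSa : ∀ m, Tendsto (fun k => ∑ i ∈ range m, c k i • e i) atTop
      (𝓝 (∑ i ∈ range m, a i • e i)) := by
    intro m
    exact tendsto_finsetSum _ fun i _ => (ha i).smul_const (e i)
  have hlim : ∀ k m, ‖∑ i ∈ range m, a i • e i - ∑ i ∈ range m, c k i • e i‖ ≤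
      P * ‖y - x k‖ := by
    intro k m
    have h1 : Tendsto (fun l => ‖∑ i ∈ range m, c l i • e i - ∑ i ∈ range m, c k i • e i‖) atTop
        (𝓝 ‖∑ i ∈ range m, a i • e i - ∑ i ∈ range m, c k i • e i‖) :=
      ((hSa m).sub_const _).norm
    have h2 : Tendsto (fun l => P * ‖x l - x k‖) atTop (𝓝 (P * ‖y - x k‖)) :=
      ((hxy.sub_const _).norm).const_mul P
    exact le_of_tendsto_of_tendsto' h1 h2 fun l => hdiff l k m
  have ha' : Tendsto (fun n => ∑ i ∈ range n, a i • e i) atTop (𝓝 y) := by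
    rw [Metric.tendsto_atTop]
    intro ε hε
    obtain ⟨k, hk⟩ := Metric.tendsto_atTop.1 hxy (ε / (P + 1)) (by positivity)
    have hk' := hk k le_rfl
    rw [dist_eq_norm, norm_sub_rev] at hk'
    obtain ⟨N, hN⟩ := sum_eq e (c k)
    refine ⟨N, fun n hn => ?_⟩
    rw [dist_eq_norm]
    have h1 := hlim k n
    rw [hN n hn, hc] at h1
    have h2 : ∑ i ∈ range n, a i • e i - y =
        (∑ i ∈ range n, a i • e i - x k) - (y - x k) := by abel
    rw [h2]
    refine lt_of_le_of_lt (norm_sub_le _ _) ?_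
    have h3 : (P + 1) * ‖y - x k‖ < (P + 1) * (ε / (P + 1)) :=
      mul_lt_mul_of_pos_left hk' (by linarith)
    have h4 : (P + 1) * (ε / (P + 1)) = ε := by
      have : P + 1 ≠ 0 := by linarith
      field_simp
    linarith
  refine ⟨a, ha', ?_⟩
  · intro b hb
    have hb' : Tendsto (fun n => ∑ i ∈ range n, b i • e i) atTop (𝓝 y) := hb
    have hd : Tendsto (fun n => ∑ i ∈ range n, (b i - a i) • e i) atTop (𝓝 0) := by
      have h1 := hb'.sub ha'
      rw [sub_self] at h1
      refine h1.congr fun n => ?_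
      rw [← sum_sub_distrib]
      exact sum_congr rfl fun i _ => (sub_smul _ _ _).symm
    have hz : ∀ m, ∑ i ∈ range m, (b i - a i) • e i = 0 := by
      intro m
      have h1 : Tendsto (fun n => P * ‖∑ i ∈ range n, (b i - a i) • e i‖) atTop (𝓝 (P * ‖(0 : X)‖)) :=
        (hd.norm).const_mul P
      have h2 : ‖∑ i ∈ range m, (b i - a i) • e i‖ ≤ P * ‖(0 : X)‖ :=
        ge_of_tendsto h1 (eventually_atTop.2 ⟨m, fun n hn => h (fun i => b i - a i) m n hn⟩)
      rw [norm_zero, mul_zero] at h2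
      exact norm_le_zero_iff.1 h2
    funext i
    have h1 := hz (i + 1)
    rw [sum_range_succ, hz i, zero_add] at h1
    rcases smul_eq_zero.1 h1 with h2 | h2
    · linarith
    · exact absurd h2 (he i)

end Pool.Agent.BC.H77
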