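import Pool.Agent.BC.Stmts

/-!
# BCV: in a B-convex space the averages with random signs decay
-/

set_option autoImplicit false

open Finset

namespace Pool.Agent.BC.H77

/-- the sign of a Boolean -/
def sgn (b : Bool) : ℝ := if b then (1 : ℝ) else -1

theorem sgn_xor (a b : Bool) : sgn (xor a b) = -(sgn a * sgn b) := by
  cases a <;> cases b <;> simp [sgn]

theorem abs_sgn (b : Bool) : |sgn b| = 1 := by
  cases b <;> simp [sgn]

/-- translation by `h` on the cube -/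
def shift {ι : Type} (h : ι → Bool) : (ι → Bool) ≃ (ι → Bool) where
  toFun e := fun i => xor (e i) (h i)
  invFun e := fun i => xor (e i) (h i)
  left_inv e := by
    funext i
    show xor (xor (e i) (h i)) (h i) = e i
    rw [Bool.xor_assoc, Bool.xor_self, Bool.xor_false]
  right_inv e := by
    funext i
    show xor (xor (e i) (h i)) (h i) = e i
    rw [Bool.xor_assoc, Bool.xor_self, Bool.xor_false]

theorem sum_shift {ι : Type} [Fintype ι] [DecidableEq ι] (h : ι → Bool) (G : (ι → Bool) → ℝ) :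
    ∑ e : ι → Bool, G (fun i => xor (e i) (h i)) = ∑ e : ι → Bool, G e :=
  Equiv.sum_comp (shift h) G

/-- marginals of the uniform measure on the cube -/
theorem sum_marginal {ι κ : Type} [Fintype ι] [DecidableEq ι] [Fintype κ] [DecidableEq κ]
    (g : κ → ι) (hg : Function.Injective g) (G : (κ → Bool) → ℝ) :
    2 ^ Fintype.card κ * ∑ e : ι → Bool, G (fun k => e (g k)) =
      2 ^ Fintype.card ι * ∑ e : κ → Bool, G e := by
  have h1 : ∀ e' : κ → Bool, ∑ e : ι → Bool, G (fun k => xor (e (g k)) (e' k)) =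
      ∑ e : ι → Bool, G (fun k => e (g k)) := by
    intro e'
    have h2 := sum_shift (Function.extend g e' (fun _ => false))
      (fun e : ι → Bool => G (fun k => e (g k)))
    rw [← h2]
    refine sum_congr rfl fun e _ => ?_
    have h3 : (fun k => xor (e (g k)) (e' k)) =
        fun k => xor (e (g k)) (Function.extend g e' (fun _ => false) (g k)) := by
      funext k
      rw [hg.extend_apply]
    rw [h3]
  have h4 : ∑ e' : κ → Bool, ∑ e : ι → Bool, G (fun k => xor (e (g k)) (e' k)) =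
      2 ^ Fintype.card κ * ∑ e : ι → Bool, G (fun k => e (g k)) := by
    rw [sum_congr rfl fun e' _ => h1 e', sum_const, card_univ, Fintype.card_fun, Fintype.card_bool,
      nsmul_eq_mul]
    push_cast
    rfl
  rw [← h4, sum_comm]
  have h5 : ∀ e ∈ (univ : Finset (ι → Bool)), ∑ e' : κ → Bool, G (fun k => xor (e (g k)) (e' k)) =
      ∑ e' : κ → Bool, G e' := by
    intro e _
    have h6 := sum_shift (fun k => e (g k)) G
    rw [← h6]
    refine sum_congr rfl fun e' _ => ?_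
    have h7 : (fun k => xor (e (g k)) (e' k)) = fun k => xor (e' k) (e (g k)) := by
      funext k
      exact Bool.xor_comm _ _
    rw [h7]
  rw [sum_congr rfl h5, sum_const, card_univ, Fintype.card_fun, Fintype.card_bool, nsmul_eq_mul]
  push_cast
  rfl

section

variable (X : Type) [NormedAddCommGroup X] [NormedSpace ℝ X]

/-- the quadratic inequality with the constant `A` for the index type `ι` -/
def Hq (ι : Type) [Fintype ι] [DecidableEq ι] (A : ℝ) : Prop :=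
  ∀ z : ι → X, ∑ e : ι → Bool, ‖∑ i, sgn (e i) • z i‖ ^ 2 ≤
    2 ^ Fintype.card ι * (A * Fintype.card ι * ∑ i, ‖z i‖ ^ 2)

variable {X}

theorem Hq.pad {ι κ : Type} [Fintype ι] [DecidableEq ι] [Fintype κ] [DecidableEq κ] {A : ℝ}
    (h : Hq X ι A) (g : κ → ι) (hg : Function.Injective g) (z : κ → X) :
    ∑ e : κ → Bool, ‖∑ i, sgn (e i) • z i‖ ^ 2 ≤
      2 ^ Fintype.card κ * (A * Fintype.card ι * ∑ i, ‖z i‖ ^ 2) := by
  have h1 := h (Function.extend g z 0)
  have h2 : ∑ i, ‖Function.extend g z 0 i‖ ^ 2 = ∑ k, ‖z k‖ ^ 2 := by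
    symm
    apply Fintype.sum_of_injective g hg
    · intro i hi
      rw [Function.extend_apply' _ _ _ (by
        rintro ⟨k, hk⟩
        exact hi ⟨k, hk⟩)]
      simp
    · intro k
      rw [hg.extend_apply]
  have h3 : ∀ e : ι → Bool, ∑ i, sgn (e i) • Function.extend g z 0 i =
      ∑ k, sgn (e (g k)) • z k := by
    intro e
    symm
    apply Fintype.sum_of_injective g hg
    · intro i hi
      rw [Function.extend_apply' _ _ _ (by
        rintro ⟨k, hk⟩
        exact hi ⟨k, hk⟩)]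
      simp
    · intro k
      rw [hg.extend_apply]
  rw [h2, sum_congr rfl fun e _ => by rw [h3 e]] at h1
  have h4 := sum_marginal g hg (fun e : κ → Bool => ‖∑ i, sgn (e i) • z i‖ ^ 2)
  have h5 : (2 : ℝ) ^ Fintype.card ι * ∑ e : κ → Bool, ‖∑ i, sgn (e i) • z i‖ ^ 2 ≤
      2 ^ Fintype.card ι * (2 ^ Fintype.card κ * (A * Fintype.card ι * ∑ i, ‖z i‖ ^ 2)) := by
    rw [← h4]
    calc 2 ^ Fintype.card κ * ∑ e : ι → Bool, ‖∑ k, sgn (e (g k)) • z k‖ ^ 2
        ≤ 2 ^ Fintype.card κ * (2 ^ Fintype.card ι * (A * Fintype.card ι * ∑ i, ‖z i‖ ^ 2)) :=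
          mul_le_mul_of_nonneg_left h1 (by positivity)
      _ = _ := by ring
  exact le_of_mul_le_mul_left h5 (by positivity)

theorem Hq.prod {ι κ : Type} [Fintype ι] [DecidableEq ι] [Fintype κ] [DecidableEq κ] {A B : ℝ}
    (hA0 : 0 ≤ A) (hA : Hq X ι A) (hB : Hq X κ B) : Hq X (ι × κ) (A * B) := by
  intro z
  -- outer signs
  have h1 : ∀ f : ι → Bool,
      ∑ e : ι × κ → Bool, ‖∑ i, sgn (f i) • ∑ k, sgn (e (i, k)) • z (i, k)‖ ^ 2 =
      ∑ e : ι × κ → Bool, ‖∑ p, sgn (e p) • z p‖ ^ 2 := by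
    intro f
    rw [← sum_shift (fun p : ι × κ => f p.1)
      (fun e : ι × κ → Bool => ‖∑ p, sgn (e p) • z p‖ ^ 2)]
    refine sum_congr rfl fun e _ => ?_
    have h2 : ∑ p : ι × κ, sgn (xor (e p) (f p.1)) • z p =
        -(∑ i, sgn (f i) • ∑ k, sgn (e (i, k)) • z (i, k)) := by
      rw [Fintype.sum_prod_type, ← sum_neg_distrib]
      refine sum_congr rfl fun i _ => ?_
      rw [smul_sum, ← sum_neg_distrib]
      refine sum_congr rfl fun k _ => ?_
      rw [sgn_xor, smul_smul, neg_smul, mul_comm (sgn (e (i, k)))]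
    rw [h2, norm_neg]
  have h3 : (2 : ℝ) ^ Fintype.card ι * ∑ e : ι × κ → Bool, ‖∑ p, sgn (e p) • z p‖ ^ 2 =
      ∑ e : ι × κ → Bool, ∑ f : ι → Bool,
        ‖∑ i, sgn (f i) • ∑ k, sgn (e (i, k)) • z (i, k)‖ ^ 2 := by
    rw [sum_comm, sum_congr rfl fun f _ => h1 f, sum_const, card_univ, Fintype.card_fun,
      Fintype.card_bool, nsmul_eq_mul]
    push_cast
    rfl
  have h4 : ∑ e : ι × κ → Bool, ∑ f : ι → Bool,
        ‖∑ i, sgn (f i) • ∑ k, sgn (e (i, k)) • z (i, k)‖ ^ 2 ≤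
      ∑ e : ι × κ → Bool, 2 ^ Fintype.card ι * (A * Fintype.card ι *
        ∑ i, ‖∑ k, sgn (e (i, k)) • z (i, k)‖ ^ 2) :=
    sum_le_sum fun e _ => hA (fun i => ∑ k, sgn (e (i, k)) • z (i, k))
  have h5 : ∀ i, ∑ e : ι × κ → Bool, ‖∑ k, sgn (e (i, k)) • z (i, k)‖ ^ 2 ≤
      2 ^ Fintype.card (ι × κ) * (B * Fintype.card κ * ∑ k, ‖z (i, k)‖ ^ 2) := by
    intro i
    have h6 := sum_marginal (fun k : κ => (i, k)) (fun k k' h => (Prod.mk.inj h).2)
      (fun e : κ → Bool => ‖∑ k, sgn (e k) • z (i, k)‖ ^ 2)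
    have h7 := hB (fun k => z (i, k))
    have h8 : (2 : ℝ) ^ Fintype.card κ *
        ∑ e : ι × κ → Bool, ‖∑ k, sgn (e (i, k)) • z (i, k)‖ ^ 2 ≤
        2 ^ Fintype.card κ *
          (2 ^ Fintype.card (ι × κ) * (B * Fintype.card κ * ∑ k, ‖z (i, k)‖ ^ 2)) := by
      rw [h6]
      calc 2 ^ Fintype.card (ι × κ) * ∑ e : κ → Bool, ‖∑ k, sgn (e k) • z (i, k)‖ ^ 2
          ≤ 2 ^ Fintype.card (ι × κ) *
            (2 ^ Fintype.card κ * (B * Fintype.card κ * ∑ k, ‖z (i, k)‖ ^ 2)) :=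
            mul_le_mul_of_nonneg_left h7 (by positivity)
        _ = _ := by ring
    exact le_of_mul_le_mul_left h8 (by positivity)
  have h9 : ∑ e : ι × κ → Bool, 2 ^ Fintype.card ι * (A * Fintype.card ι *
        ∑ i, ‖∑ k, sgn (e (i, k)) • z (i, k)‖ ^ 2) ≤
      2 ^ Fintype.card ι * (2 ^ Fintype.card (ι × κ) *
        (A * B * Fintype.card (ι × κ) * ∑ p, ‖z p‖ ^ 2)) := by
    rw [← mul_sum, ← mul_sum, sum_comm]
    refine mul_le_mul_of_nonneg_left ?_ (by positivity)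
    calc A * Fintype.card ι * ∑ i, ∑ e : ι × κ → Bool, ‖∑ k, sgn (e (i, k)) • z (i, k)‖ ^ 2
        ≤ A * Fintype.card ι * ∑ i, 2 ^ Fintype.card (ι × κ) *
            (B * Fintype.card κ * ∑ k, ‖z (i, k)‖ ^ 2) :=
          mul_le_mul_of_nonneg_left (sum_le_sum fun i _ => h5 i) (by positivity)
      _ = 2 ^ Fintype.card (ι × κ) * (A * B * Fintype.card (ι × κ) * ∑ p, ‖z p‖ ^ 2) := by
          rw [← mul_sum, ← mul_sum, Fintype.sum_prod_type, Fintype.card_prod]
          push_cast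
          ring
  have h10 := h3.le.trans (h4.trans h9)
  exact le_of_mul_le_mul_left h10 (by positivity)

theorem Hq.mul {n m : ℕ} {A B : ℝ} (hA0 : 0 ≤ A) (hA : Hq X (Fin n) A) (hB : Hq X (Fin m) B) :
    Hq X (Fin (n * m)) (A * B) := by
  intro z
  have h := (Hq.prod hA0 hA hB).pad (finProdFinEquiv.symm : Fin (n * m) → Fin n × Fin m)
    finProdFinEquiv.symm.injective z
  simp only [Fintype.card_prod, Fintype.card_fin] at h ⊢
  exact h

theorem Hq.one : Hq X (Fin 1) 1 := by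
  intro z
  have h1 : ∀ e ∈ (univ : Finset (Fin 1 → Bool)), ‖∑ i, sgn (e i) • z i‖ ^ 2 = ‖z 0‖ ^ 2 := by
    intro e _
    rw [Fin.sum_univ_one, norm_smul, Real.norm_eq_abs, abs_sgn, one_mul]
  rw [sum_congr rfl h1, sum_const, card_univ, Fintype.card_fun, Fintype.card_bool,
    Fintype.card_fin, nsmul_eq_mul]
  simp

theorem Hq.pow {n : ℕ} {A : ℝ} (hA0 : 0 ≤ A) (hA : Hq X (Fin n) A) (j : ℕ) :
    Hq X (Fin (n ^ j)) (A ^ j) := by
  induction j with
  | zero => simpa using (Hq.one : Hq X (Fin 1) 1)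
  | succ j ih =>
    rw [pow_succ, pow_succ]
    exact Hq.mul (pow_nonneg hA0 j) ih hA

theorem norm_signs_le {N : ℕ} (z : Fin N → X) (e : Fin N → Bool) :
    ‖∑ i, sgn (e i) • z i‖ ≤ ∑ i, ‖z i‖ := by
  refine (norm_sum_le _ _).trans (sum_le_sum fun i _ => ?_)
  rw [norm_smul, Real.norm_eq_abs, abs_sgn, one_mul]

theorem Hq.cs (N : ℕ) : Hq X (Fin N) 1 := by
  intro z
  have h1 : ∀ e ∈ (univ : Finset (Fin N → Bool)), ‖∑ i, sgn (e i) • z i‖ ^ 2 ≤
      N * ∑ i, ‖z i‖ ^ 2 := by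
    intro e _
    have h2 := norm_signs_le z e
    have h3 : (∑ i, ‖z i‖) ^ 2 ≤ N * ∑ i, ‖z i‖ ^ 2 := by
      have h4 := sq_sum_le_card_mul_sum_sq (s := (univ : Finset (Fin N))) (f := fun i => ‖z i‖)
      simpa using h4
    calc ‖∑ i, sgn (e i) • z i‖ ^ 2 ≤ (∑ i, ‖z i‖) ^ 2 :=
          pow_le_pow_left₀ (norm_nonneg _) h2 2
      _ ≤ _ := h3
  refine (sum_le_sum h1).trans (le_of_eq ?_)
  rw [sum_const, card_univ, Fintype.card_fun, Fintype.card_bool, Fintype.card_fin, nsmul_eq_mul]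
  push_cast
  ring

theorem var_ge {N : ℕ} (hN : 0 < N) (a : Fin N → ℝ) (j : Fin N) :
    (∑ i, a i) ^ 2 / N + (a j - (∑ i, a i) / N) ^ 2 ≤ ∑ i, a i ^ 2 := by
  have hN' : (N : ℝ) ≠ 0 := by positivity
  have h1 : ∑ i, (a i - (∑ i, a i) / N) ^ 2 = ∑ i, a i ^ 2 - (∑ i, a i) ^ 2 / N := by
    have h2 : ∀ i ∈ (univ : Finset (Fin N)), (a i - (∑ i, a i) / N) ^ 2 =
        a i ^ 2 - 2 * ((∑ i, a i) / N) * a i + ((∑ i, a i) / N) ^ 2 := by
      intro i _
      ring
    rw [sum_congr rfl h2, sum_add_distrib, sum_sub_distrib, ← mul_sum, sum_const, card_univ,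
      Fintype.card_fin, nsmul_eq_mul]
    field_simp
    ring
  have h3 : (a j - (∑ i, a i) / N) ^ 2 ≤ ∑ i, (a i - (∑ i, a i) / N) ^ 2 :=
    single_le_sum (f := fun i => (a i - (∑ i, a i) / N) ^ 2) (fun i _ => sq_nonneg _) (mem_univ j)
  linarith

theorem base (hB : BConvex X) : ∃ N : ℕ, 1 ≤ N ∧ ∃ A : ℝ, 0 < A ∧ A < 1 ∧ Hq X (Fin N) A := by
  obtain ⟨N, η, hη, h⟩ := hB
  have hN : 0 < N := by
    rcases Nat.eq_zero_or_pos N with h0 | h0
    · subst h0
      obtain ⟨e, he⟩ := h (fun _ => 0) (fun i => by simp)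
      simp at he
      linarith
    · exact h0
  have hNr : (0 : ℝ) < N := by exact_mod_cast hN
  have hηN : η ≤ N := by
    obtain ⟨e, he⟩ := h (fun _ => 0) (fun i => by simp)
    have := norm_nonneg (∑ i : Fin N, (if e i then (1 : ℝ) else -1) • (0 : X))
    linarith
  obtain ⟨u, hu⟩ : ∃ u : ℝ, u = η / (2 * N) := ⟨_, rfl⟩
  have hu0 : 0 < u := by
    rw [hu]
    positivity
  have hu1 : u ≤ 1 := by
    rw [hu, div_le_one (by positivity)]
    linarith
  have hηu : η = 2 * N * u := by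
    rw [hu]
    field_simp
  have h2N : (1 : ℝ) ≤ 2 ^ N := one_le_pow₀ (by norm_num)
  refine ⟨N, hN, max (1 / (1 + u ^ 2 / N)) (1 - u / 2 ^ N), ?_, ?_, ?_⟩
  · exact lt_max_of_lt_left (by positivity)
  · refine max_lt ?_ ?_
    · rw [div_lt_one (by positivity)]
      have : 0 < u ^ 2 / N := by positivity
      linarith
    · have : 0 < u / 2 ^ N := by positivity
      linarith
  intro z
  have : Nonempty (Fin N) := ⟨⟨0, hN⟩⟩
  obtain ⟨j, hj⟩ := Finite.exists_max (fun i => ‖z i‖)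
  obtain ⟨M, hM⟩ : ∃ M : ℝ, M = ‖z j‖ := ⟨_, rfl⟩
  obtain ⟨s, hs⟩ : ∃ s : ℝ, s = ∑ i, ‖z i‖ := ⟨_, rfl⟩
  have hs0 : 0 ≤ s := by
    rw [hs]
    positivity
  have hsM : s ≤ N * M := by
    rw [hs]
    calc ∑ i, ‖z i‖ ≤ ∑ _i : Fin N, M := sum_le_sum fun i _ => by
          rw [hM]
          exact hj i
      _ = N * M := by
          rw [sum_const, card_univ, Fintype.card_fin, nsmul_eq_mul]
  have hvar := var_ge hN (fun i => ‖z i‖) j
  rw [← hs, ← hM] at hvar
  obtain ⟨S, hS⟩ : ∃ S : ℝ, S = ∑ i, ‖z i‖ ^ 2 := ⟨_, rfl⟩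
  rw [← hS] at hvar ⊢
  rw [Fintype.card_fin]
  have hS0 : 0 ≤ S := by
    rw [hS]
    positivity
  have hsq : ∀ e : Fin N → Bool, ‖∑ i, sgn (e i) • z i‖ ^ 2 ≤ s ^ 2 := by
    intro e
    rw [hs]
    exact pow_le_pow_left₀ (norm_nonneg _) (norm_signs_le z e) 2
  have hcard : ∀ b : ℝ, ∑ _e : Fin N → Bool, b = 2 ^ N * b := by
    intro b
    rw [sum_const, card_univ, Fintype.card_fun, Fintype.card_bool, Fintype.card_fin, nsmul_eq_mul]
    push_cast
    rfl
  -- enough: a bound by `s ^ 2`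
  by_cases hcase : η * M / 2 ≤ N * M - s
  · have h1 : ∑ e : Fin N → Bool, ‖∑ i, sgn (e i) • z i‖ ^ 2 ≤ 2 ^ N * s ^ 2 := by
      rw [← hcard]
      exact sum_le_sum fun e _ => hsq e
    have h2 : u * (s / N) ≤ M - s / N := by
      have h3 : s / N ≤ M := by
        rw [div_le_iff₀ hNr]
        linarith
      have h4 : u * M ≤ M - s / N := by
        have h5 : N * (u * M) ≤ N * (M - s / N) := by
          have h6 : N * (M - s / N) = N * M - s := by
            field_simp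
          rw [h6]
          rw [hηu] at hcase
          nlinarith
        exact le_of_mul_le_mul_left h5 hNr
      have h7 : u * (s / N) ≤ u * M := mul_le_mul_of_nonneg_left h3 hu0.le
      linarith
    have h3 : (u * (s / N)) ^ 2 ≤ (M - s / N) ^ 2 := pow_le_pow_left₀ (by positivity) h2 2
    have h4 : s ^ 2 * (1 + u ^ 2 / N) ≤ N * S := by
      have h5 : N * (s ^ 2 / N + (u * (s / N)) ^ 2) ≤ N * S :=
        mul_le_mul_of_nonneg_left (by linarith) hNr.le
      have h6 : N * (s ^ 2 / N + (u * (s / N)) ^ 2) = s ^ 2 * (1 + u ^ 2 / N) := by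
        field_simp
      linarith
    have h5 : s ^ 2 ≤ 1 / (1 + u ^ 2 / N) * N * S := by
      have h6 : 0 < 1 + u ^ 2 / N := by positivity
      rw [mul_assoc, one_div, inv_mul_eq_div, le_div_iff₀ h6]
      exact h4
    refine h1.trans (mul_le_mul_of_nonneg_left (h5.trans ?_) (by positivity))
    rw [mul_assoc, mul_assoc]
    exact mul_le_mul_of_nonneg_right (le_max_left _ _) (by positivity)
  · push Not at hcase
    have hM0 : 0 < M := by
      have h1 : 0 ≤ M := by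
        rw [hM]
        exact norm_nonneg _
      rcases h1.eq_or_lt with h2 | h2
      · rw [← h2] at hcase hsM
        simp at hcase hsM
        linarith
      · exact h2
    obtain ⟨e₀, he₀⟩ := h (fun i => M⁻¹ • z i) (by
      intro i
      rw [norm_smul, Real.norm_eq_abs, abs_of_pos (inv_pos.2 hM0), inv_mul_le_iff₀ hM0, mul_one,
        hM]
      exact hj i)
    have h1 : ‖∑ i, sgn (e₀ i) • z i‖ ≤ M * (N - η) := by
      have h2 : ∑ i, (if e₀ i then (1 : ℝ) else -1) • M⁻¹ • z i = M⁻¹ • ∑ i, sgn (e₀ i) • z i := by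
        rw [smul_sum]
        refine sum_congr rfl fun i _ => ?_
        rw [smul_comm]
        rfl
      rw [h2, norm_smul, Real.norm_eq_abs, abs_of_pos (inv_pos.2 hM0), inv_mul_le_iff₀ hM0] at he₀
      exact he₀
    have h2 : ‖∑ i, sgn (e₀ i) • z i‖ ≤ s * (1 - u) := by
      refine h1.trans ?_
      rw [hηu] at hcase ⊢
      nlinarith
    have h3 : ‖∑ i, sgn (e₀ i) • z i‖ ^ 2 ≤ s ^ 2 - u * s ^ 2 := by
      have h4 : ‖∑ i, sgn (e₀ i) • z i‖ ^ 2 ≤ (s * (1 - u)) ^ 2 :=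
        pow_le_pow_left₀ (norm_nonneg _) h2 2
      have h5 : (s * (1 - u)) ^ 2 ≤ s ^ 2 - u * s ^ 2 := by
        have h6 : (1 - u) ^ 2 ≤ 1 - u := by nlinarith
        have h7 : s ^ 2 * (1 - u) ^ 2 ≤ s ^ 2 * (1 - u) :=
          mul_le_mul_of_nonneg_left h6 (by positivity)
        nlinarith
      linarith
    have h4 : ∑ e : Fin N → Bool, ‖∑ i, sgn (e i) • z i‖ ^ 2 ≤
        ∑ e : Fin N → Bool, (s ^ 2 - if e = e₀ then u * s ^ 2 else 0) := by
      refine sum_le_sum fun e _ => ?_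
      by_cases he : e = e₀
      · rw [if_pos he, he]
        exact h3
      · rw [if_neg he, sub_zero]
        exact hsq e
    have h5 : ∑ e : Fin N → Bool, (s ^ 2 - if e = e₀ then u * s ^ 2 else 0) =
        2 ^ N * s ^ 2 - u * s ^ 2 := by
      rw [sum_sub_distrib, hcard, Finset.sum_ite_eq' univ e₀, if_pos (mem_univ e₀)]
    rw [h5] at h4
    have h6 : s ^ 2 ≤ N * S := by
      have h7 : N * (s ^ 2 / N) ≤ N * S :=
        mul_le_mul_of_nonneg_left (by nlinarith [sq_nonneg (M - s / N)]) hNr.le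
      have h8 : N * (s ^ 2 / N) = s ^ 2 := by field_simp
      linarith
    have h7 : (2 : ℝ) ^ N * s ^ 2 - u * s ^ 2 = 2 ^ N * ((1 - u / 2 ^ N) * s ^ 2) := by
      field_simp
    have h8 : 0 ≤ 1 - u / 2 ^ N := by
      have : u / 2 ^ N ≤ 1 := by
        rw [div_le_one (by positivity)]
        linarith
      linarith
    refine h4.trans ?_
    rw [h7]
    refine mul_le_mul_of_nonneg_left ?_ (by positivity)
    calc (1 - u / 2 ^ N) * s ^ 2 ≤ (1 - u / 2 ^ N) * (N * S) := mul_le_mul_of_nonneg_left h6 h8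
      _ ≤ max (1 / (1 + u ^ 2 / N)) (1 - u / 2 ^ N) * (N * S) :=
          mul_le_mul_of_nonneg_right (le_max_right _ _) (by positivity)
      _ = _ := by ring

end

theorem bcv : BcvStmt := by
  intro X _ _ hB
  obtain ⟨N, hN, A, hA0, hA1, hA⟩ := base hB
  have hH : Hq X (Fin (N * 2)) A := by
    have h := Hq.mul hA0.le hA (Hq.cs 2)
    rwa [mul_one] at h
  obtain ⟨n, hn⟩ : ∃ n : ℕ, n = N * 2 := ⟨_, rfl⟩
  rw [← hn] at hH
  have hn2 : 1 < n := by omega
  have hnr : (1 : ℝ) < n := by exact_mod_cast hn2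
  have hlogn : 0 < Real.log n := Real.log_pos hnr
  have hlogA : Real.log A < 0 := Real.log_neg hA0 hA1
  have hlog2 : 0 < Real.log 2 := Real.log_pos (by norm_num)
  obtain ⟨g, hg⟩ : ∃ g : ℝ, g = Real.log 2 * Real.log A / Real.log n := ⟨_, rfl⟩
  have hg0 : g < 0 := by
    rw [hg]
    exact div_neg_of_neg_of_pos (mul_neg_of_pos_of_neg hlog2 hlogA) hlogn
  refine ⟨Real.sqrt n, Real.exp (g / 2), Real.sqrt_nonneg _, Real.exp_pos _, ?_, ?_⟩
  · rw [Real.exp_lt_one_iff]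
    linarith
  intro r z hz
  obtain ⟨j, hj1, hj2⟩ : ∃ j : ℕ, 2 ^ r ≤ n ^ j ∧ n ^ j ≤ n * 2 ^ r := by
    refine ⟨Nat.clog n (2 ^ r), Nat.le_pow_clog hn2 _, ?_⟩
    rcases Nat.eq_zero_or_pos r with h0 | h0
    · subst h0
      simp
      omega
    · have h1 : 1 < 2 ^ r := Nat.one_lt_pow (by omega) (by norm_num)
      have h2 := Nat.pow_pred_clog_lt_self hn2 h1
      have h3 : 0 < Nat.clog n (2 ^ r) := Nat.clog_pos hn2 h1
      obtain ⟨q, hq⟩ : ∃ q, Nat.clog n (2 ^ r) = q + 1 := ⟨Nat.clog n (2 ^ r) - 1, by omega⟩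
      rw [hq] at h2 ⊢
      simp only [Nat.pred_succ] at h2
      rw [pow_succ, mul_comm]
      exact Nat.mul_le_mul_left n h2.le
  have hP := (Hq.pow hA0.le hH j).pad (Fin.castLE hj1) (Fin.castLE_injective hj1)
    (fun i => ((1 : ℝ) / 2) ^ r • z i)
  rw [Fintype.card_fin, Fintype.card_fin] at hP
  have hz2 : ∑ i, ‖((1 : ℝ) / 2) ^ r • z i‖ ^ 2 ≤ ((1 : ℝ) / 2) ^ r := by
    calc ∑ i, ‖((1 : ℝ) / 2) ^ r • z i‖ ^ 2 ≤ ∑ _i : Fin (2 ^ r), ((1 : ℝ) / 4) ^ r := by
          refine sum_le_sum fun i _ => ?_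
          rw [norm_smul, Real.norm_eq_abs, abs_of_pos (by positivity), mul_pow]
          have h1 : (((1 : ℝ) / 2) ^ r) ^ 2 = (1 / 4) ^ r := by
            rw [← pow_mul, mul_comm, pow_mul]
            norm_num
          rw [h1]
          have h2 : ‖z i‖ ^ 2 ≤ 1 := pow_le_one₀ (norm_nonneg _) (hz i)
          have h3 : (0 : ℝ) < (1 / 4) ^ r := by positivity
          nlinarith
      _ = ((1 : ℝ) / 2) ^ r := by
          rw [sum_const, card_univ, Fintype.card_fin, nsmul_eq_mul]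
          push_cast
          rw [← mul_pow]
          norm_num
  have hAj : A ^ j ≤ Real.exp (g * r) := by
    have h1 : A ^ j = Real.exp (j * Real.log A) := by
      rw [mul_comm, Real.exp_mul, Real.exp_log hA0, Real.rpow_natCast]
    rw [h1]
    apply Real.exp_le_exp.2
    have h2 : (r : ℝ) * Real.log 2 ≤ j * Real.log n := by
      have h3 : Real.log ((2 : ℝ) ^ r) ≤ Real.log ((n : ℝ) ^ j) := by
        apply Real.log_le_log (by positivity)
        exact_mod_cast hj1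
      rwa [Real.log_pow, Real.log_pow] at h3
    have h4 : j * Real.log n * Real.log A ≤ r * Real.log 2 * Real.log A :=
      mul_le_mul_of_nonpos_right h2 hlogA.le
    have h5 : (j : ℝ) * Real.log A = j * Real.log n * Real.log A / Real.log n := by
      field_simp
    have h6 : g * r = r * Real.log 2 * Real.log A / Real.log n := by
      rw [hg]
      ring
    rw [h5, h6]
    exact div_le_div_of_nonneg_right h4 hlogn.le
  obtain ⟨F, hF⟩ : ∃ F : (Fin (2 ^ r) → Bool) → ℝ,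
      F = fun e => ‖∑ i, (if e i then (1 : ℝ) else -1) • ((1 : ℝ) / 2) ^ r • z i‖ := ⟨_, rfl⟩
  have hsq : ∑ e, F e ^ 2 ≤ 2 ^ 2 ^ r * (n * Real.exp (g * r)) := by
    have h1 : ∑ e, F e ^ 2 ≤ 2 ^ 2 ^ r * (A ^ j * (n ^ j : ℕ) *
        ∑ i, ‖((1 : ℝ) / 2) ^ r • z i‖ ^ 2) := by
      rw [hF]
      exact hP
    refine h1.trans (mul_le_mul_of_nonneg_left ?_ (by positivity))
    have h2 : ((n ^ j : ℕ) : ℝ) ≤ n * 2 ^ r := by exact_mod_cast hj2
    calc A ^ j * (n ^ j : ℕ) * ∑ i, ‖((1 : ℝ) / 2) ^ r • z i‖ ^ 2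
        ≤ A ^ j * (n * 2 ^ r) * ((1 : ℝ) / 2) ^ r := by
          apply mul_le_mul (mul_le_mul_of_nonneg_left h2 (by positivity)) hz2 (by positivity)
            (by positivity)
      _ = n * A ^ j := by
          have h3 : (2 : ℝ) ^ r * (1 / 2) ^ r = 1 := by
            rw [← mul_pow]
            norm_num
          calc A ^ j * (n * 2 ^ r) * ((1 : ℝ) / 2) ^ r = n * A ^ j * (2 ^ r * (1 / 2) ^ r) := by ring
            _ = n * A ^ j := by rw [h3, mul_one]
      _ ≤ n * Real.exp (g * r) := mul_le_mul_of_nonneg_left hAj (by positivity)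
  have hcs : (∑ e, F e) ^ 2 ≤ 2 ^ 2 ^ r * ∑ e, F e ^ 2 := by
    have h4 := sq_sum_le_card_mul_sum_sq (s := (univ : Finset (Fin (2 ^ r) → Bool))) (f := F)
    rw [card_univ, Fintype.card_fun, Fintype.card_bool, Fintype.card_fin] at h4
    push_cast at h4
    exact h4
  have hsg : sg (fun i => ((1 : ℝ) / 2) ^ r • z i) = ((2 : ℝ) ^ 2 ^ r)⁻¹ * ∑ e, F e := by
    rw [hF]
    rfl
  have hfin : (((2 : ℝ) ^ 2 ^ r)⁻¹ * ∑ e, F e) ^ 2 ≤ n * Real.exp (g * r) := by
    have h1 : (∑ e, F e) ^ 2 ≤ 2 ^ 2 ^ r * (2 ^ 2 ^ r * (n * Real.exp (g * r))) :=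
      hcs.trans (mul_le_mul_of_nonneg_left hsq (by positivity))
    have h2 : (((2 : ℝ) ^ 2 ^ r)⁻¹ * ∑ e, F e) ^ 2 =
        (((2 : ℝ) ^ 2 ^ r)⁻¹) ^ 2 * (∑ e, F e) ^ 2 := by ring
    rw [h2]
    calc (((2 : ℝ) ^ 2 ^ r)⁻¹) ^ 2 * (∑ e, F e) ^ 2
        ≤ (((2 : ℝ) ^ 2 ^ r)⁻¹) ^ 2 * (2 ^ 2 ^ r * (2 ^ 2 ^ r * (n * Real.exp (g * r)))) :=
          mul_le_mul_of_nonneg_left h1 (by positivity)
      _ = n * Real.exp (g * r) := by
          have h3 : (2 : ℝ) ^ 2 ^ r ≠ 0 := by positivity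
          field_simp
  rw [hsg]
  have h0 : Real.sqrt n * Real.exp (g / 2) ^ r = Real.sqrt (n * Real.exp (g * r)) := by
    rw [Real.sqrt_mul (by positivity), ← Real.exp_nat_mul]
    have h1 : Real.sqrt (Real.exp (g * r)) = Real.exp (r * (g / 2)) := by
      rw [Real.sqrt_eq_iff_mul_self_eq (Real.exp_pos _).le (Real.exp_pos _).le, ← Real.exp_add]
      ring_nf
    rw [h1]
  rw [h0]
  exact Real.le_sqrt_of_sq_le hfin

end Pool.Agent.BC.H77
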