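import Pool.Agent.BC.Stmts

/-!
# PHB: the potential at the reference times
-/

set_option autoImplicit false

open Finset

namespace Pool.Agent.BC.H77

section

variable {X : Type} [NormedAddCommGroup X] [NormedSpace ℝ X]

/-- the leaves below the node `(k₀, j₀)` at the time `2 ^ K` -/
def lf (K k₀ j₀ τ : ℕ) (hj : j₀ < 2 ^ k₀) (hk : k₀ ≤ K) (hτ : τ + 1 = 2 ^ K)
    (l : Fin (2 ^ (K - k₀))) : Fin (τ + 1) :=
  ⟨j₀ + 2 ^ k₀ * (l : ℕ), by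
    have h1 : 2 ^ K = 2 ^ k₀ * 2 ^ (K - k₀) := by
      rw [← pow_add, Nat.add_sub_cancel' hk]
    have h2 : (l : ℕ) + 1 ≤ 2 ^ (K - k₀) := l.isLt
    have h3 : 2 ^ k₀ * ((l : ℕ) + 1) ≤ 2 ^ k₀ * 2 ^ (K - k₀) := Nat.mul_le_mul_left _ h2
    rw [mul_add, mul_one] at h3
    rw [hτ, h1]
    omega⟩

theorem lf_injective (K k₀ j₀ τ : ℕ) (hj : j₀ < 2 ^ k₀) (hk : k₀ ≤ K) (hτ : τ + 1 = 2 ^ K) :
    Function.Injective (lf K k₀ j₀ τ hj hk hτ) := by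
  intro l l' h
  have h1 := congrArg Fin.val h
  simp only [lf] at h1
  have h2 : 2 ^ k₀ * (l : ℕ) = 2 ^ k₀ * (l' : ℕ) := by omega
  have h3 : (l : ℕ) = l' := Nat.eq_of_mul_eq_mul_left (by positivity) h2
  exact Fin.ext h3

theorem J_wg (hW : WgtStmt) (x : ℕ → ℤ → X) (K k₀ j₀ τ : ℕ) (hj : j₀ < 2 ^ k₀) (hk : k₀ ≤ K)
    (hτ : τ + 1 = 2 ^ K) (n : ℕ) (d : Fin (τ + 1) → ℤ) :
    J x n d (fun i : Fin (τ + 1) => wg (τ + 1) k₀ j₀ i) =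
      J x n (d ∘ lf K k₀ j₀ τ hj hk hτ) (fun _ => ((1 : ℝ) / 2) ^ (K - k₀)) := by
  have hwg : ∀ v : ℕ, v < τ + 1 → wg (τ + 1) k₀ j₀ v = wt K k₀ j₀ v := by
    intro v hv
    rw [hτ] at hv ⊢
    exact hW.1 K k₀ j₀ v hv
  unfold J
  symm
  apply Fintype.sum_of_injective _ (lf_injective K k₀ j₀ τ hj hk hτ)
  · intro i hi
    have h1 : wg (τ + 1) k₀ j₀ (i : ℕ) = 0 := by
      rw [hwg i i.isLt]
      unfold wt
      rw [if_neg]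
      intro h2
      apply hi
      have h3 : (i : ℕ) < 2 ^ k₀ * 2 ^ (K - k₀) := by
        rw [← pow_add, Nat.add_sub_cancel' hk, ← hτ]
        exact i.isLt
      refine ⟨⟨(i : ℕ) / 2 ^ k₀, Nat.div_lt_of_lt_mul h3⟩, ?_⟩
      apply Fin.ext
      show j₀ + 2 ^ k₀ * ((i : ℕ) / 2 ^ k₀) = i
      rw [← h2]
      exact Nat.mod_add_div _ _
    show wg (τ + 1) k₀ j₀ (i : ℕ) • x n (d i) = 0
    rw [h1, zero_smul]
  · intro l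
    have h1 : wg (τ + 1) k₀ j₀ ((lf K k₀ j₀ τ hj hk hτ l : Fin (τ + 1)) : ℕ) =
        ((1 : ℝ) / 2) ^ (K - k₀) := by
      rw [hwg _ (lf K k₀ j₀ τ hj hk hτ l).isLt]
      unfold wt
      rw [if_pos]
      show (j₀ + 2 ^ k₀ * (l : ℕ)) % 2 ^ k₀ = j₀
      rw [Nat.add_mul_mod_self_left, Nat.mod_eq_of_lt hj]
    show ((1 : ℝ) / 2) ^ (K - k₀) • x n (d (lf K k₀ j₀ τ hj hk hτ l)) =
      wg (τ + 1) k₀ j₀ ((lf K k₀ j₀ τ hj hk hτ l : Fin (τ + 1)) : ℕ) •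
        x n (d (lf K k₀ j₀ τ hj hk hτ l))
    rw [h1]

end

theorem phb (hM : MarStmt) (hW : WgtStmt) : PhbStmt := by
  intro M γ hM0 hγ0 hγ1
  -- a ratio in `(max γ (1/2), 1)`
  obtain ⟨σ, hσ⟩ : ∃ σ : ℝ, σ = max γ (3 / 4) := ⟨_, rfl⟩
  have hσγ : γ ≤ σ := by
    rw [hσ]
    exact le_max_left _ _
  have hσ34 : 3 / 4 ≤ σ := by
    rw [hσ]
    exact le_max_right _ _
  have hσ0 : 0 < σ := by linarith
  have hσ1 : σ < 1 := by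
    rw [hσ]
    exact max_lt hγ1 (by norm_num)
  have h2σ : 1 / (2 * σ) < 1 := by
    rw [div_lt_one (by positivity)]
    linarith
  have h2σ0 : 0 ≤ 1 / (2 * σ) := by positivity
  refine ⟨M * (1 - 1 / (2 * σ))⁻¹, σ, ?_, hσ0, hσ1, ?_⟩
  · have : 0 < 1 - 1 / (2 * σ) := by linarith
    positivity
  intro X _ _ x hx hT K τ hτ n c
  have hterm : ∀ k₀ ∈ range (K + 1), ∀ j₀ ∈ range (2 ^ k₀),
      ((1 : ℝ) / 4) ^ k₀ * QP x (fun i : Fin (τ + 1) => wg (τ + 1) k₀ j₀ i)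
        (J x n c (fun i : Fin (τ + 1) => wg (τ + 1) k₀ j₀ i)) n c ≤
      ((1 : ℝ) / 4) ^ k₀ * (M * σ ^ (K - k₀)) := by
    intro k₀ hk j₀ hj
    refine mul_le_mul_of_nonneg_left ?_ (by positivity)
    rw [mem_range] at hk hj
    have hk' : k₀ ≤ K := by omega
    have h1 : QP x (fun i : Fin (τ + 1) => wg (τ + 1) k₀ j₀ i)
        (J x n c (fun i : Fin (τ + 1) => wg (τ + 1) k₀ j₀ i)) n c =
        QP x (fun _ : Fin (2 ^ (K - k₀)) => ((1 : ℝ) / 2) ^ (K - k₀))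
          (J x n (c ∘ lf K k₀ j₀ τ hj hk' hτ) (fun _ => ((1 : ℝ) / 2) ^ (K - k₀))) n
          (c ∘ lf K k₀ j₀ τ hj hk' hτ) := by
      unfold QP
      refine iSup_congr fun m => ?_
      rw [J_wg hW x K k₀ j₀ τ hj hk' hτ n c]
      have h2 := (hM ℝ m).1 (2 ^ (K - k₀)) (τ + 1) (lf K k₀ j₀ τ hj hk' hτ)
        (lf_injective K k₀ j₀ τ hj hk' hτ)
        (fun d => ‖J x (n + m) d (fun _ => ((1 : ℝ) / 2) ^ (K - k₀)) -
          J x n (c ∘ lf K k₀ j₀ τ hj hk' hτ) (fun _ => ((1 : ℝ) / 2) ^ (K - k₀))‖) c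
      rw [← h2]
      have h3 : (fun d : Fin (τ + 1) → ℤ => ‖J x (n + m) d
          (fun i : Fin (τ + 1) => wg (τ + 1) k₀ j₀ i) -
          J x n (c ∘ lf K k₀ j₀ τ hj hk' hτ) (fun _ => ((1 : ℝ) / 2) ^ (K - k₀))‖) =
          fun d => ‖J x (n + m) (d ∘ lf K k₀ j₀ τ hj hk' hτ) (fun _ => ((1 : ℝ) / 2) ^ (K - k₀)) -
          J x n (c ∘ lf K k₀ j₀ τ hj hk' hτ) (fun _ => ((1 : ℝ) / 2) ^ (K - k₀))‖ := by
        funext d
        rw [J_wg hW x K k₀ j₀ τ hj hk' hτ (n + m) d]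
      rw [h3]
    rw [h1]
    refine (hT (K - k₀) n (c ∘ lf K k₀ j₀ τ hj hk' hτ)).trans ?_
    exact mul_le_mul_of_nonneg_left (pow_le_pow_left₀ hγ0.le hσγ _) hM0
  have hsum : Ph x K τ (fun k₀ j₀ => J x n c (fun i => wg (τ + 1) k₀ j₀ i)) n c ≤
      ∑ k₀ ∈ range (K + 1), ∑ _j₀ ∈ range (2 ^ k₀), ((1 : ℝ) / 4) ^ k₀ * (M * σ ^ (K - k₀)) :=
    sum_le_sum fun k₀ hk => sum_le_sum fun j₀ hj => hterm k₀ hk j₀ hj
  refine hsum.trans ?_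
  have h5 : ∀ k₀ ∈ range (K + 1), ∑ _j₀ ∈ range (2 ^ k₀),
      ((1 : ℝ) / 4) ^ k₀ * (M * σ ^ (K - k₀)) = M * σ ^ K * (1 / (2 * σ)) ^ k₀ := by
    intro k₀ hk
    have hk' : k₀ ≤ K := by
      rw [mem_range] at hk
      omega
    rw [sum_const, card_range, nsmul_eq_mul]
    have h6 : σ ^ K = σ ^ (K - k₀) * σ ^ k₀ := by
      rw [← pow_add, Nat.sub_add_cancel hk']
    have h7 : σ ^ k₀ ≠ 0 := by positivity
    rw [h6, div_pow, div_pow, mul_pow, one_pow]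
    push_cast
    have h8 : (4 : ℝ) ^ k₀ = 2 ^ k₀ * 2 ^ k₀ := by
      rw [← mul_pow]
      norm_num
    rw [h8]
    field_simp
  rw [sum_congr rfl h5, ← mul_sum]
  have h9 : ∑ i ∈ range (K + 1), (1 / (2 * σ)) ^ i ≤ (1 - 1 / (2 * σ))⁻¹ := by
    rw [← tsum_geometric_of_lt_one h2σ0 h2σ]
    exact (summable_geometric_of_lt_one h2σ0 h2σ).sum_le_tsum _ fun i _ => by positivity
  calc M * σ ^ K * ∑ i ∈ range (K + 1), (1 / (2 * σ)) ^ i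
      ≤ M * σ ^ K * (1 - 1 / (2 * σ))⁻¹ := mul_le_mul_of_nonneg_left h9 (by positivity)
    _ = M * (1 - 1 / (2 * σ))⁻¹ * σ ^ K := by ring

end Pool.Agent.BC.H77
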