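import Pool.Agent.BC.Stmts

/-!
# POT: the potential is a supermartingale for the splitting
-/

set_option autoImplicit false

open Finset Filter Topology

namespace Pool.Agent.BC.H77

theorem av_mono {t : ℕ} (m : ℕ) (G G' : (Fin t → ℤ) → ℝ) (h : ∀ d, G d ≤ G' d)
    (c : Fin t → ℤ) : av m G c ≤ av m G' c := by
  unfold av
  rw [smul_eq_mul, smul_eq_mul]
  exact mul_le_mul_of_nonneg_left (sum_le_sum fun r _ => h _) (by positivity)

theorem av_const {t : ℕ} (m : ℕ) (b : ℝ) (c : Fin t → ℤ) : av m (fun _ => b) c = b := by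
  unfold av
  rw [sum_const, card_univ, Fintype.card_fun, Fintype.card_fin, Fintype.card_fin, nsmul_eq_mul,
    smul_eq_mul]
  push_cast
  have h : ((2 : ℝ) ^ m) ^ t ≠ 0 := by positivity
  field_simp

theorem av_half_add {t : ℕ} (m : ℕ) (G G' : (Fin t → ℤ) → ℝ) (c : Fin t → ℤ) :
    av m (fun d => (G d + G' d) / 2) c = (av m G c + av m G' c) / 2 := by
  unfold av
  rw [smul_eq_mul, smul_eq_mul, smul_eq_mul, ← sum_div, sum_add_distrib]
  ring

theorem av_tendsto {t : ℕ} (m : ℕ) (G : ℕ → (Fin t → ℤ) → ℝ) (G' : (Fin t → ℤ) → ℝ)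
    (h : ∀ d, Tendsto (fun k => G k d) atTop (𝓝 (G' d))) (c : Fin t → ℤ) :
    Tendsto (fun k => av m (G k) c) atTop (𝓝 (av m G' c)) := by
  unfold av
  simp only [smul_eq_mul]
  exact (tendsto_finsetSum _ fun r _ => h _).const_mul _

section

variable {X : Type} [NormedAddCommGroup X] [NormedSpace ℝ X]

theorem norm_J_le (x : ℕ → ℤ → X) (hx : IsT x) {t : ℕ} (n : ℕ) (c : Fin t → ℤ) (a : Fin t → ℝ) :
    ‖J x n c a‖ ≤ ∑ i, |a i| := by
  unfold J
  refine (norm_sum_le _ _).trans (sum_le_sum fun i _ => ?_)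
  rw [norm_smul, Real.norm_eq_abs]
  have h := hx.1 n (c i)
  nlinarith [abs_nonneg (a i)]

theorem q_le (x : ℕ → ℤ → X) (hx : IsT x) {t : ℕ} (θ : Fin t → ℝ) (r : X) (n m : ℕ)
    (c : Fin t → ℤ) : av m (fun d => ‖J x (n + m) d θ - r‖) c ≤ ∑ i, |θ i| + ‖r‖ := by
  rw [← av_const m (∑ i, |θ i| + ‖r‖) c]
  refine av_mono m _ _ (fun d => ?_) c
  refine (norm_sub_le _ _).trans ?_
  have := norm_J_le x hx (n + m) d θ
  linarith

theorem q_bdd (x : ℕ → ℤ → X) (hx : IsT x) {t : ℕ} (θ : Fin t → ℝ) (r : X) (n : ℕ)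
    (c : Fin t → ℤ) :
    BddAbove (Set.range fun m => av m (fun d => ‖J x (n + m) d θ - r‖) c) := by
  refine ⟨∑ i, |θ i| + ‖r‖, ?_⟩
  rintro _ ⟨m, rfl⟩
  exact q_le x hx θ r n m c

theorem q_mono (hT : TowStmt) (hJ : JenStmt) (x : ℕ → ℤ → X) (hx : IsT x) {t : ℕ}
    (θ : Fin t → ℝ) (r : X) (n : ℕ) (c : Fin t → ℤ) :
    Monotone fun m => av m (fun d => ‖J x (n + m) d θ - r‖) c := by
  intro m m' hmm
  obtain ⟨k, rfl⟩ := Nat.exists_eq_add_of_le hmm
  show av m (fun d => ‖J x (n + m) d θ - r‖) c ≤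
    av (m + k) (fun d => ‖J x (n + (m + k)) d θ - r‖) c
  rw [(hT ℝ m k).1 t (fun d => ‖J x (n + (m + k)) d θ - r‖) c]
  refine av_mono m _ _ (fun d => ?_) c
  have h := ((hJ X x hx).2.2.2 t (n + m) k d θ).2.1 r
  rw [Nat.add_assoc] at h
  exact h

/-- the two sections of `pr s` -/
def e1 {t : ℕ} (s : Fin t) (i : Fin t) : Fin (t + 1) := if i = s then Fin.last t else i.castSucc

theorem pr_castSucc {t : ℕ} (s i : Fin t) : pr s i.castSucc = i := by
  simp [pr]

theorem pr_last {t : ℕ} (s : Fin t) : pr s (Fin.last t) = s := by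
  simp [pr]

theorem pr_e1 {t : ℕ} (s i : Fin t) : pr s (e1 s i) = i := by
  unfold e1
  by_cases h : i = s
  · rw [if_pos h, pr_last, h]
  · rw [if_neg h, pr_castSucc]

theorem e1_injective {t : ℕ} (s : Fin t) : Function.Injective (e1 s) := by
  intro i j h
  have h1 := congrArg (pr s) h
  rwa [pr_e1, pr_e1] at h1

theorem J_io (x : ℕ → ℤ → X) {t : ℕ} (s : Fin t) (θ : Fin t → ℝ) (n : ℕ)
    (d : Fin (t + 1) → ℤ) :
    J x n d (io s θ) =
      (2 : ℝ)⁻¹ • (J x n (d ∘ Fin.castSucc) θ + J x n (d ∘ e1 s) θ) := by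
  have h1 : J x n (d ∘ e1 s) θ = J x n (d ∘ Fin.castSucc) θ +
      θ s • (x n (d (Fin.last t)) - x n (d s.castSucc)) := by
    unfold J
    have h2 : ∀ i ∈ (univ : Finset (Fin t)), θ i • x n ((d ∘ e1 s) i) =
        θ i • x n ((d ∘ Fin.castSucc) i) +
          (if i = s then θ s • (x n (d (Fin.last t)) - x n (d s.castSucc)) else 0) := by
      intro i _
      simp only [Function.comp_apply, e1]
      by_cases h : i = s
      · subst h
        rw [if_pos rfl, if_pos rfl, smul_sub]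
        abel
      · rw [if_neg h, if_neg h, add_zero]
    rw [sum_congr rfl h2, sum_add_distrib, Finset.sum_ite_eq' univ s, if_pos (mem_univ s)]
  have h3 : J x n d (io s θ) = J x n (d ∘ Fin.castSucc) θ -
      (2 : ℝ)⁻¹ • (θ s • x n (d s.castSucc)) + (2 : ℝ)⁻¹ • (θ s • x n (d (Fin.last t))) := by
    unfold J
    rw [Fin.sum_univ_castSucc]
    have h4 : ∀ i ∈ (univ : Finset (Fin t)), io s θ i.castSucc • x n (d i.castSucc) =
        θ i • x n ((d ∘ Fin.castSucc) i) -
          (if i = s then (2 : ℝ)⁻¹ • (θ s • x n (d s.castSucc)) else 0) := by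
      intro i _
      simp only [Function.comp_apply, io, pr_castSucc]
      by_cases h : i = s
      · subst h
        rw [if_pos rfl, if_pos rfl, smul_smul, ← sub_smul]
        congr 1
        ring
      · rw [if_neg h, if_neg h, sub_zero]
    rw [sum_congr rfl h4, sum_sub_distrib, Finset.sum_ite_eq' univ s, if_pos (mem_univ s)]
    have h5 : io s θ (Fin.last t) = (2 : ℝ)⁻¹ * θ s := by
      simp only [io, pr_last, if_pos]
      ring
    rw [h5, mul_smul]
  rw [h3, h1, smul_add, smul_add, smul_sub, smul_sub]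
  have h6 : ∀ w : X, w = (2 : ℝ)⁻¹ • w + (2 : ℝ)⁻¹ • w := by
    intro w
    rw [← add_smul]
    norm_num
  nth_rewrite 1 [h6 (J x n (d ∘ Fin.castSucc) θ)]
  abel

end

theorem pot (hT : TowStmt) (hM : MarStmt) (hJ : JenStmt) : PotStmt := by
  intro X _ _ x hx t s θ r n c
  refine ⟨?_, ?_⟩
  · have h := ((hJ X x hx).2.2.2 t n 0 c θ).2.1 r
    exact h.trans (le_ciSup (q_bdd x hx θ r n c) 0)
  · intro m
    have hlim : Tendsto (fun m' => av m (fun d => av m' (fun d' =>
        ‖J x (n + m + m') d' (io s θ) - r‖) d) (c ∘ pr s)) atTop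
        (𝓝 (av m (fun d => QP x (io s θ) r (n + m) d) (c ∘ pr s))) := by
      refine av_tendsto m (fun m' d => av m' (fun d' =>
        ‖J x (n + m + m') d' (io s θ) - r‖) d) _ (fun d => ?_) (c ∘ pr s)
      exact tendsto_atTop_ciSup (q_mono hT hJ x hx (io s θ) r (n + m) d)
        (q_bdd x hx (io s θ) r (n + m) d)
    refine le_of_tendsto' hlim fun m' => ?_
    rw [← (hT ℝ m m').1 (t + 1) (fun d' => ‖J x (n + m + m') d' (io s θ) - r‖) (c ∘ pr s)]
    have h1 : av (m + m') (fun d' => ‖J x (n + m + m') d' (io s θ) - r‖) (c ∘ pr s) ≤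
        av (m + m') (fun d' => (‖J x (n + m + m') (d' ∘ Fin.castSucc) θ - r‖ +
          ‖J x (n + m + m') (d' ∘ e1 s) θ - r‖) / 2) (c ∘ pr s) := by
      refine av_mono _ _ _ (fun d' => ?_) _
      rw [J_io]
      have h2 : (2 : ℝ)⁻¹ • (J x (n + m + m') (d' ∘ Fin.castSucc) θ +
          J x (n + m + m') (d' ∘ e1 s) θ) - r =
          (2 : ℝ)⁻¹ • ((J x (n + m + m') (d' ∘ Fin.castSucc) θ - r) +
            (J x (n + m + m') (d' ∘ e1 s) θ - r)) := by
        have h3 : r = (2 : ℝ)⁻¹ • (r + r) := by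
          rw [← two_smul ℝ r, smul_smul]
          norm_num
        nth_rewrite 1 [h3]
        rw [← smul_sub]
        congr 1
        abel
      rw [h2, norm_smul, Real.norm_eq_abs, abs_of_pos (by norm_num : (0 : ℝ) < 2⁻¹)]
      have h4 := norm_add_le (J x (n + m + m') (d' ∘ Fin.castSucc) θ - r)
        (J x (n + m + m') (d' ∘ e1 s) θ - r)
      linarith
    refine h1.trans ?_
    rw [av_half_add (m + m') (fun d' => ‖J x (n + m + m') (d' ∘ Fin.castSucc) θ - r‖)
      (fun d' => ‖J x (n + m + m') (d' ∘ e1 s) θ - r‖) (c ∘ pr s)]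
    have h5 : (c ∘ pr s) ∘ Fin.castSucc = c := by
      funext i
      simp only [Function.comp_apply, pr_castSucc]
    have h6 : (c ∘ pr s) ∘ e1 s = c := by
      funext i
      simp only [Function.comp_apply, pr_e1]
    have h7 := (hM ℝ (m + m')).1 t (t + 1) Fin.castSucc (Fin.castSucc_injective t)
      (fun d => ‖J x (n + m + m') d θ - r‖) (c ∘ pr s)
    have h8 := (hM ℝ (m + m')).1 t (t + 1) (e1 s) (e1_injective s)
      (fun d => ‖J x (n + m + m') d θ - r‖) (c ∘ pr s)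
    rw [h5] at h7
    rw [h6] at h8
    have h9 : av (m + m') (fun d => ‖J x (n + m + m') d θ - r‖) c ≤ QP x θ r n c := by
      have h10 := le_ciSup (q_bdd x hx θ r n c) (m + m')
      simp only [← Nat.add_assoc] at h10
      exact h10
    have h11 : (av (m + m') (fun d' => ‖J x (n + m + m') (d' ∘ Fin.castSucc) θ - r‖) (c ∘ pr s) +
        av (m + m') (fun d' => ‖J x (n + m + m') (d' ∘ e1 s) θ - r‖) (c ∘ pr s)) / 2 =
        av (m + m') (fun d => ‖J x (n + m + m') d θ - r‖) c := by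
      rw [h7, h8]
      ring
    rw [h11]
    exact h9

end Pool.Agent.BC.H77
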